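import Pool.Agent.H.MP_0cad2f_co.helper11.Fin3

/-!
A lower bound for the expected diameter of Gaussian-perturbed polytopes with many constraints.
-/

set_option autoImplicit false

open MeasureTheory ProbabilityTheory

namespace Pool.Agent.Results.MP_0cad2f_co.BallClusters

/-- For `2 ≤ d`, `5 ^ d ≤ n` and admissible `σ` (if `n < σ ^ (-10 * d)`, also
`σ * √(d + log n) ≤ 1 / 128`) some centres of norm at most `1` give an expected edge-graph
diameter of at least `(d / 330) * min (n ^ (1 / d)) (√(√(log n) / (σ * Λ)))`, where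
`Λ = min (log n) (d * log (1 / σ))`. -/
theorem result (n d : ℕ) (hd : 2 ≤ d) (hn : 5 ^ d ≤ n) (σ : ℝ) (hσ : 0 < σ)
    (hadm : σ ≤ 1 / (6 * Real.sqrt (d * Real.log n)))
    (hs : Real.log n < 10 * d * Real.log (1 / σ) → σ * Real.sqrt (d + Real.log n) ≤ 1 / 128) :
    ∃ c : Fin n → Fin d → ℝ, (∀ i, ∑ j, (c i j) ^ 2 ≤ 1) ∧
      ENNReal.ofReal (1 / 330 * (d * min ((n : ℝ) ^ (1 / (d : ℝ)))
        (Real.sqrt (Real.sqrt (Real.log n) /
          (σ * min (Real.log n) (d * Real.log (1 / σ))))))) ≤
      ∫⁻ a : Fin n → Fin d → ℝ,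
          ((SimpleGraph.fromRel
              (fun (u v : {x : Fin d → ℝ //
                  (∀ i, ∑ j, a i j * x j ≤ 1) ∧
                  Submodule.span ℝ (a '' {i | ∑ j, a i j * x j = 1}) = ⊤}) =>
                Module.finrank ℝ
                  (Submodule.span ℝ
                    (a '' {i | ∑ j, a i j * u.1 j = 1 ∧ ∑ j, a i j * v.1 j = 1}))
                  = d - 1)).ediam : ENNReal)
        ∂(Measure.pi (fun i : Fin n =>
            Measure.pi (fun j : Fin d => gaussianReal (c i j) (Real.toNNReal (σ ^ 2))))) :=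
  Pool.Agent.H.MP_0cad2f_co.helper11.main4 hd hn hσ hadm hs

end Pool.Agent.Results.MP_0cad2f_co.BallClusters
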